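import Mathlib
import Pool.Agent.N469.EP.Conv
import Pool.Agent.N469.EP.Tr
import Pool.Agent.N469.EP.Inf
import Pool.Agent.N469.EP.Ifp
import Pool.Agent.N469.EP.Aut
import Pool.Agent.N469.EP.Cj
import Pool.Agent.N469.EP.Fac
import Pool.Agent.N469.EP.Soa
import Pool.Agent.N469.EP.Sob
import Pool.Agent.N469.EP.Fix

set_option autoImplicit false

/-!
# Strictly outer actions without ergodic cocycle perturbation

For every countably infinite group `G` there are a II₁ factor `M` and a strictly outer action `α`
of `G` on `M` such that `Ad v ∘ α` is not ergodic for any 1-cocycle `v`. Here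
`M = L(Γ)`, where `Γ` is the group of finitely supported permutations of the disjoint union of `ℝ`
and `G`, and `α_s` is given by the conjugation by the translation by `s` of `G`.

Written by helper469 with helper344, helper342, helper42, helper862, helper654, helper570,
helper543, helper494, helper186.
-/

namespace Pool.Agent.Results.MP_418a80_an.NonergodicPerturbations

open Pool.Agent.N469.EP Pool.Agent.N469.EP.Short

/-- For every countably infinite discrete group `G` there are a II₁ factor `M` and a strictly outer
action `α` of `G` on `M` such that `Ad v ∘ α` is not ergodic for any 1-cocycle `v` for `α`. -/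
theorem result (G : Type) [Group G] [Countable G] [Infinite G] :
    ∃ (H : Type) (_ : NormedAddCommGroup H) (_ : InnerProductSpace ℂ H) (_ : CompleteSpace H)
      (M : VonNeumannAlgebra H) (α : G → Op H → Op H),
      Short.IsIIOne M ∧ Short.IsAction M α ∧ Short.StrictlyOuter M α ∧
        ∀ v : G → Op H, Short.IsCocycle M α v → ¬ Short.ErgodicPerturbation M α v := by
  obtain ⟨H, i1, i2, i3, M, α, h1, h2, h3⟩ :=
    main t_tr t_inf t_ifp t_aut t_cj (t_fac t_cj) t_soa t_sob t_fix G
  exact ⟨H, i1, i2, i3, M, act α, conv h1 α h2 h3⟩

end Pool.Agent.Results.MP_418a80_an.NonergodicPerturbations
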